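import Pool.Agent.Helper82.OneArm.Trace
import Pool.Agent.Helper44.OneArm.B1

/-! Module (B2): the homogeneous (confluent) limit of the determinant formula. -/

open Real MeasureTheory Filter Topology

namespace OneArm

namespace B2

theorem exp_rem (n : ℕ) (y : ℝ) :
    ‖Complex.exp (y : ℂ) - ∑ m ∈ Finset.range n, (y : ℂ) ^ m / (m.factorial : ℂ)‖ ≤
      |y| ^ n * Real.exp |y| := by
  have h := Complex.norm_exp_sub_sum_le_norm_mul_exp (y : ℂ) n
  rwa [Complex.norm_real, Real.norm_eq_abs] at h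

section
variable {L : ℕ} (x : Fin L → ℝ)

/-- the inverse Vandermonde matrix -/
noncomputable def Wm : Matrix (Fin L) (Fin L) ℂ := (Matrix.vandermonde fun i => (x i : ℂ))⁻¹

/-- normalised combinations of exponentials tending to `(2 v)^r / r!` -/
noncomputable def phi (ε : ℝ) (r : Fin L) (v : ℝ) : ℂ :=
  ((ε : ℂ) ^ (r : ℕ))⁻¹ * ∑ i, Wm x r i * Complex.exp ((2 * (ε * x i) * v : ℝ) : ℂ)

theorem vdm_det_ne (hx : Function.Injective x) :
    (Matrix.vandermonde fun i => (x i : ℂ)).det ≠ 0 := by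
  rw [Matrix.det_vandermonde_ne_zero_iff]
  exact fun i j h => hx (Complex.ofReal_injective h)

theorem WV (hx : Function.Injective x) (r m : Fin L) :
    ∑ i, Wm x r i * (x i : ℂ) ^ (m : ℕ) = if r = m then 1 else 0 := by
  have h := Matrix.nonsing_inv_mul (Matrix.vandermonde fun i => (x i : ℂ))
    (isUnit_iff_ne_zero.mpr (vdm_det_ne x hx))
  have h2 := congrFun (congrFun h r) m
  rw [Matrix.mul_apply, Matrix.one_apply] at h2
  simpa [Wm, Matrix.vandermonde_apply] using h2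

theorem VW (hx : Function.Injective x) (i j : Fin L) :
    ∑ r : Fin L, (x i : ℂ) ^ (r : ℕ) * Wm x r j = if i = j then 1 else 0 := by
  have h := Matrix.mul_nonsing_inv (Matrix.vandermonde fun i => (x i : ℂ))
    (isUnit_iff_ne_zero.mpr (vdm_det_ne x hx))
  have h2 := congrFun (congrFun h i) j
  rw [Matrix.mul_apply, Matrix.one_apply] at h2
  simpa [Wm, Matrix.vandermonde_apply] using h2

theorem exp_eq_phi (hx : Function.Injective x) {ε : ℝ} (hε : ε ≠ 0) (i : Fin L) (v : ℝ) :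
    Complex.exp ((2 * (ε * x i) * v : ℝ) : ℂ) =
      ∑ r : Fin L, (x i : ℂ) ^ (r : ℕ) * ((ε : ℂ) ^ (r : ℕ) * phi x ε r v) := by
  have h1 : ∀ r : Fin L, (x i : ℂ) ^ (r : ℕ) * ((ε : ℂ) ^ (r : ℕ) * phi x ε r v) =
      ∑ j, ((x i : ℂ) ^ (r : ℕ) * Wm x r j) * Complex.exp ((2 * (ε * x j) * v : ℝ) : ℂ) := by
    intro r
    unfold phi
    rw [← mul_assoc ((ε : ℂ) ^ (r : ℕ)), mul_inv_cancel₀ (pow_ne_zero _ (by exact_mod_cast hε)),
      one_mul, Finset.mul_sum]
    exact Finset.sum_congr rfl fun j _ => by ring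
  simp only [h1]
  rw [Finset.sum_comm]
  simp only [← Finset.sum_mul]
  simp only [VW x hx]
  rw [Finset.sum_eq_single i]
  · simp
  · intro j _ hj; rw [if_neg (Ne.symm hj)]; ring
  · intro h; exact absurd (Finset.mem_univ i) h

/-- a bound of the nodes -/
noncomputable def Xm : ℝ := 1 + ∑ i, |x i|

theorem Xm_pos : 0 < Xm x := by
  have : 0 ≤ ∑ i, |x i| := Finset.sum_nonneg fun i _ => abs_nonneg _
  unfold Xm; linarith

theorem le_Xm (i : Fin L) : |x i| ≤ Xm x := by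
  have := Finset.single_le_sum (f := fun i => |x i|) (fun i _ => abs_nonneg (x i)) (Finset.mem_univ i)
  unfold Xm
  linarith

/-- the constant in the remainder estimate -/
noncomputable def Bc : ℝ := 2 ^ L * ∑ r, ∑ i, ‖Wm x r i‖ * |x i| ^ L

theorem Bc_nonneg : 0 ≤ Bc x := by
  unfold Bc
  exact mul_nonneg (by positivity)
    (Finset.sum_nonneg fun r _ => Finset.sum_nonneg fun i _ => by positivity)

theorem phi_sub (hx : Function.Injective x) {ε : ℝ} (hε : ε ≠ 0) (hε1 : |ε| ≤ 1)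
    (hε2 : 8 * (|ε| * Xm x) ≤ 1) (r : Fin L) (v : ℝ) :
    ‖phi x ε r v - (2 * v) ^ (r : ℕ) / ((r : ℕ).factorial : ℂ)‖ ≤
      |ε| * (Bc x * ((1 + |v|) ^ L * Real.exp (|v| / 4))) := by
  have h1 : ((ε : ℂ) ^ (r : ℕ))⁻¹ * ∑ i, Wm x r i *
      ∑ m ∈ Finset.range L, ((2 * (ε * x i) * v : ℝ) : ℂ) ^ m / (m.factorial : ℂ) =
      (2 * v) ^ (r : ℕ) / ((r : ℕ).factorial : ℂ) := by
    have h2 : ∑ i, Wm x r i *
      ∑ m ∈ Finset.range L, ((2 * (ε * x i) * v : ℝ) : ℂ) ^ m / (m.factorial : ℂ) =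
      ∑ m : Fin L, (∑ i, Wm x r i * (x i : ℂ) ^ (m : ℕ)) *
        ((2 * v) ^ (m : ℕ) * (ε : ℂ) ^ (m : ℕ) / ((m : ℕ).factorial : ℂ)) := by
      simp only [Finset.sum_range, Finset.mul_sum, Finset.sum_mul]
      rw [Finset.sum_comm]
      refine Finset.sum_congr rfl fun m _ => Finset.sum_congr rfl fun i _ => ?_
      push_cast
      ring
    rw [h2]
    simp only [WV x hx]
    rw [Finset.sum_eq_single r]
    · have h3 : (ε : ℂ) ^ (r : ℕ) ≠ 0 := pow_ne_zero _ (by exact_mod_cast hε)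
      rw [if_pos rfl]
      field_simp
    · intro m _ hm; rw [if_neg (Ne.symm hm)]; ring
    · intro h; exact absurd (Finset.mem_univ r) h
  rw [← h1, phi, ← mul_sub, ← Finset.sum_sub_distrib]
  simp only [← mul_sub]
  rw [norm_mul, norm_inv, norm_pow, Complex.norm_real, Real.norm_eq_abs]
  have hε0 : 0 < |ε| := abs_pos.mpr hε
  have h4 : ‖∑ i, Wm x r i * (Complex.exp ((2 * (ε * x i) * v : ℝ) : ℂ) -
      ∑ m ∈ Finset.range L, ((2 * (ε * x i) * v : ℝ) : ℂ) ^ m / (m.factorial : ℂ))‖ ≤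
      (|ε| ^ L * (|v| ^ L * Real.exp (|v| / 4))) * Bc x := by
    refine (norm_sum_le _ _).trans ?_
    have h5 : ∀ i : Fin L, ‖Wm x r i * (Complex.exp ((2 * (ε * x i) * v : ℝ) : ℂ) -
      ∑ m ∈ Finset.range L, ((2 * (ε * x i) * v : ℝ) : ℂ) ^ m / (m.factorial : ℂ))‖ ≤
      (|ε| ^ L * (|v| ^ L * Real.exp (|v| / 4))) * (2 ^ L * (‖Wm x r i‖ * |x i| ^ L)) := by
      intro i
      rw [norm_mul]
      refine (mul_le_mul_of_nonneg_left (exp_rem L (2 * (ε * x i) * v)) (norm_nonneg _)).trans ?_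
      have h6 : |2 * (ε * x i) * v| ≤ |v| / 4 := by
        rw [abs_mul, abs_mul, abs_mul, abs_two]
        have h7 : |ε| * |x i| ≤ |ε| * Xm x := mul_le_mul_of_nonneg_left (le_Xm x i) hε0.le
        nlinarith [abs_nonneg v]
      have h8 : |2 * (ε * x i) * v| ^ L = 2 ^ L * |ε| ^ L * |x i| ^ L * |v| ^ L := by
        rw [abs_mul, abs_mul, abs_mul, abs_two, mul_pow, mul_pow, mul_pow]; ring
      rw [h8]
      have h9 : Real.exp |2 * (ε * x i) * v| ≤ Real.exp (|v| / 4) := Real.exp_le_exp.mpr h6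
      calc ‖Wm x r i‖ * (2 ^ L * |ε| ^ L * |x i| ^ L * |v| ^ L * Real.exp |2 * (ε * x i) * v|) ≤
            ‖Wm x r i‖ * (2 ^ L * |ε| ^ L * |x i| ^ L * |v| ^ L * Real.exp (|v| / 4)) := by
              refine mul_le_mul_of_nonneg_left ?_ (norm_nonneg _)
              exact mul_le_mul_of_nonneg_left h9 (by positivity)
        _ = _ := by ring
    refine (Finset.sum_le_sum fun i _ => h5 i).trans ?_
    rw [← Finset.mul_sum, ← Finset.mul_sum]
    refine mul_le_mul_of_nonneg_left ?_ (by positivity)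
    unfold Bc
    refine mul_le_mul_of_nonneg_left ?_ (by positivity)
    exact Finset.single_le_sum (f := fun r => ∑ i, ‖Wm x r i‖ * |x i| ^ L)
      (fun r _ => Finset.sum_nonneg fun i _ => by positivity) (Finset.mem_univ r)
  refine (mul_le_mul_of_nonneg_left h4 (by positivity)).trans ?_
  have h6' : ∀ a b : ℕ, a < b → (|ε| ^ a)⁻¹ * |ε| ^ b ≤ |ε| := by
    intro a b hab
    obtain ⟨m, rfl⟩ : ∃ m, b = a + m + 1 := ⟨b - a - 1, by omega⟩
    have h8 : (|ε| ^ a)⁻¹ * |ε| ^ (a + m + 1) = |ε| ^ m * |ε| := by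
      rw [pow_add, pow_add, pow_one]
      have : |ε| ^ a ≠ 0 := (pow_pos hε0 _).ne'
      field_simp
    rw [h8]
    exact mul_le_of_le_one_left hε0.le (pow_le_one₀ hε0.le hε1)
  have h6 : (|ε| ^ (r : ℕ))⁻¹ * |ε| ^ L ≤ |ε| := h6' r L r.2
  have h9 : |v| ^ L * Real.exp (|v| / 4) ≤ (1 + |v|) ^ L * Real.exp (|v| / 4) :=
    mul_le_mul_of_nonneg_right (pow_le_pow_left₀ (abs_nonneg v) (by linarith) L) (Real.exp_pos _).le
  calc (|ε| ^ (r : ℕ))⁻¹ * (|ε| ^ L * (|v| ^ L * Real.exp (|v| / 4)) * Bc x) =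
        ((|ε| ^ (r : ℕ))⁻¹ * |ε| ^ L) * ((|v| ^ L * Real.exp (|v| / 4)) * Bc x) := by ring
    _ ≤ |ε| * (((1 + |v|) ^ L * Real.exp (|v| / 4)) * Bc x) := by
        refine mul_le_mul h6 (mul_le_mul_of_nonneg_right h9 (Bc_nonneg x)) ?_ hε0.le
        exact mul_nonneg (by positivity) (Bc_nonneg x)
    _ = _ := by ring

theorem monomial_bound (r : Fin L) (v : ℝ) :
    ‖(2 * (v : ℂ)) ^ (r : ℕ) / ((r : ℕ).factorial : ℂ)‖ ≤ 2 ^ L * ((1 + |v|) ^ L * Real.exp (|v| / 4)) := by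
  rw [norm_div, norm_pow, norm_mul, Complex.norm_real, Real.norm_eq_abs,
    Complex.norm_natCast, Complex.norm_ofNat]
  have h4 : (1 : ℝ) ≤ (r : ℕ).factorial := by exact_mod_cast Nat.factorial_pos (r : ℕ)
  have h5 : (1 : ℝ) ≤ Real.exp (|v| / 4) := Real.one_le_exp (by positivity)
  calc (2 * |v|) ^ (r : ℕ) / ((r : ℕ).factorial : ℝ) ≤ (2 * |v|) ^ (r : ℕ) :=
        div_le_self (by positivity) h4
    _ ≤ (2 * (1 + |v|)) ^ (r : ℕ) := pow_le_pow_left₀ (by positivity) (by linarith) _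
    _ ≤ (2 * (1 + |v|)) ^ L := pow_le_pow_right₀ (by linarith [abs_nonneg v]) r.2.le
    _ = 2 ^ L * ((1 + |v|) ^ L * 1) := by rw [mul_pow]; ring
    _ ≤ _ := by
      refine mul_le_mul_of_nonneg_left ?_ (by positivity)
      exact mul_le_mul_of_nonneg_left h5 (by positivity)

theorem phi_bound (hx : Function.Injective x) {ε : ℝ} (hε : ε ≠ 0) (hε1 : |ε| ≤ 1)
    (hε2 : 8 * (|ε| * Xm x) ≤ 1) (r : Fin L) (v : ℝ) :
    ‖phi x ε r v‖ ≤ (2 ^ L + Bc x) * ((1 + |v|) ^ L * Real.exp (|v| / 4)) := by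
  have h1 := phi_sub x hx hε hε1 hε2 r v
  have h2 := monomial_bound r v
  have h3 : ‖phi x ε r v‖ ≤ ‖phi x ε r v - (2 * v) ^ (r : ℕ) / ((r : ℕ).factorial : ℂ)‖ +
      ‖(2 * (v : ℂ)) ^ (r : ℕ) / ((r : ℕ).factorial : ℂ)‖ := by
    have := norm_add_le (phi x ε r v - (2 * v) ^ (r : ℕ) / ((r : ℕ).factorial : ℂ))
      ((2 * (v : ℂ)) ^ (r : ℕ) / ((r : ℕ).factorial : ℂ))
    rwa [sub_add_cancel] at this
  have h4 : |ε| * (Bc x * ((1 + |v|) ^ L * Real.exp (|v| / 4))) ≤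
      Bc x * ((1 + |v|) ^ L * Real.exp (|v| / 4)) :=
    mul_le_of_le_one_left (mul_nonneg (Bc_nonneg x) (by positivity)) hε1
  calc ‖phi x ε r v‖ ≤ _ := h3
    _ ≤ Bc x * ((1 + |v|) ^ L * Real.exp (|v| / 4)) + 2 ^ L * ((1 + |v|) ^ L * Real.exp (|v| / 4)) :=
        add_le_add (h1.trans h4) h2
    _ = _ := by ring

theorem phi_cont (ε : ℝ) (r : Fin L) : Continuous (phi x ε r) := by
  unfold phi
  refine continuous_const.mul (continuous_finsetSum _ fun i _ => continuous_const.mul ?_)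
  exact Complex.continuous_exp.comp
    (Complex.continuous_ofReal.comp (continuous_const.mul continuous_id))

theorem ev_small : ∀ᶠ ε : ℝ in 𝓝[≠] 0, ε ≠ 0 ∧ |ε| ≤ 1 ∧ 8 * (|ε| * Xm x) ≤ 1 := by
  have h1 : ∀ᶠ ε : ℝ in 𝓝[≠] 0, ε ≠ 0 := eventually_mem_nhdsWithin
  have h2 : ∀ᶠ ε : ℝ in 𝓝[≠] 0, |ε| ≤ 1 := by
    have : ∀ᶠ ε : ℝ in 𝓝 0, |ε| ≤ 1 := by
      have h3 : Tendsto (fun ε : ℝ => |ε|) (𝓝 0) (𝓝 |(0:ℝ)|) := continuous_abs.tendsto 0
      rw [abs_zero] at h3
      exact h3.eventually (eventually_le_nhds (by norm_num))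
    exact nhdsWithin_le_nhds this
  have h2' : ∀ᶠ ε : ℝ in 𝓝[≠] 0, 8 * (|ε| * Xm x) ≤ 1 := by
    have : ∀ᶠ ε : ℝ in 𝓝 0, 8 * (|ε| * Xm x) ≤ 1 := by
      have h3 : Tendsto (fun ε : ℝ => 8 * (|ε| * Xm x)) (𝓝 0) (𝓝 (8 * (|(0:ℝ)| * Xm x))) :=
        (continuous_const.mul (continuous_abs.mul continuous_const)).tendsto 0
      rw [abs_zero, zero_mul, mul_zero] at h3
      exact h3.eventually (eventually_le_nhds (by norm_num))
    exact nhdsWithin_le_nhds this
  exact h1.and (h2.and h2')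

theorem phi_tendsto (hx : Function.Injective x) (r : Fin L) (v : ℝ) :
    Tendsto (fun ε => phi x ε r v) (𝓝[≠] 0) (𝓝 ((2 * v) ^ (r : ℕ) / ((r : ℕ).factorial : ℂ))) := by
  rw [tendsto_iff_norm_sub_tendsto_zero]
  have h0 : Tendsto (fun ε : ℝ => |ε| * (Bc x * ((1 + |v|) ^ L * Real.exp (|v| / 4)))) (𝓝[≠] 0) (𝓝 0) := by
    have h1 : Tendsto (fun ε : ℝ => |ε| * (Bc x * ((1 + |v|) ^ L * Real.exp (|v| / 4)))) (𝓝 0)
        (𝓝 (|(0:ℝ)| * (Bc x * ((1 + |v|) ^ L * Real.exp (|v| / 4))))) :=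
      (continuous_abs.mul continuous_const).tendsto 0
    rw [abs_zero, zero_mul] at h1
    exact h1.mono_left nhdsWithin_le_nhds
  refine squeeze_zero' (Eventually.of_forall fun ε => norm_nonneg _) ?_ h0
  filter_upwards [ev_small x] with ε hε
  exact phi_sub x hx hε.1 hε.2.1 hε.2.2 r v

end

theorem kap_bound (θ v : ℝ) : ‖kap θ v‖ ≤ 2 * Real.exp (-(2 * |v|)) := by
  have h1 : ‖Complex.cosh ((π : ℂ) * v / 3 + Complex.I * θ / 2)‖ ≤ Real.exp (|π * v / 3|) := by
    rw [Complex.cosh, norm_div, Complex.norm_ofNat]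
    have h2 : ‖Complex.exp ((π : ℂ) * v / 3 + Complex.I * θ / 2)‖ ≤ Real.exp (|π * v / 3|) := by
      rw [Complex.norm_exp]
      apply Real.exp_le_exp.mpr
      have : ((π : ℂ) * v / 3 + Complex.I * θ / 2).re = π * v / 3 := by
        have e : ((π : ℂ) * v / 3 + Complex.I * θ / 2) = ((π * v / 3 : ℝ) : ℂ) + ((θ / 2 : ℝ) : ℂ) * Complex.I := by
          push_cast; ring
        rw [e, Complex.add_re, Complex.ofReal_re, Complex.re_ofReal_mul, Complex.I_re]; ring
      rw [this]; exact le_abs_self _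
    have h3 : ‖Complex.exp (-((π : ℂ) * v / 3 + Complex.I * θ / 2))‖ ≤ Real.exp (|π * v / 3|) := by
      rw [Complex.norm_exp]
      apply Real.exp_le_exp.mpr
      have : (-((π : ℂ) * v / 3 + Complex.I * θ / 2)).re = -(π * v / 3) := by
        have e : (-((π : ℂ) * v / 3 + Complex.I * θ / 2)) = ((-(π * v / 3) : ℝ) : ℂ) + ((-(θ / 2) : ℝ) : ℂ) * Complex.I := by
          push_cast; ring
        rw [e, Complex.add_re, Complex.ofReal_re, Complex.re_ofReal_mul, Complex.I_re]; ring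
      rw [this]; exact neg_le_abs _
    have h4 := norm_add_le (Complex.exp ((π : ℂ) * v / 3 + Complex.I * θ / 2))
      (Complex.exp (-((π : ℂ) * v / 3 + Complex.I * θ / 2)))
    linarith
  have h5 : Complex.cosh ((π : ℂ) * v) = ((Real.cosh (π * v) : ℝ) : ℂ) := by push_cast; rfl
  have h6 := wt_le_exp v
  rw [kap, norm_div, h5, Complex.norm_real, Real.norm_eq_abs, abs_of_pos (Real.cosh_pos _),
    div_eq_mul_inv]
  have h7 : (Real.cosh (π * v))⁻¹ = wt v := rfl
  rw [h7]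
  calc ‖Complex.cosh ((π : ℂ) * v / 3 + Complex.I * θ / 2)‖ * wt v ≤
        Real.exp (|π * v / 3|) * (2 * Real.exp (-(π * |v|))) :=
        mul_le_mul h1 h6 (wt_pos v).le (Real.exp_pos _).le
    _ = 2 * Real.exp (|π * v / 3| - π * |v|) := by
        rw [sub_eq_add_neg, Real.exp_add]; ring
    _ ≤ 2 * Real.exp (-(2 * |v|)) := by
        refine mul_le_mul_of_nonneg_left ?_ (by norm_num)
        apply Real.exp_le_exp.mpr
        rw [abs_div, abs_mul, abs_of_pos Real.pi_pos, abs_of_pos (by norm_num : (0:ℝ) < 3)]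
        have := Real.pi_gt_three
        nlinarith [abs_nonneg v]

theorem cosh_ne (v : ℝ) : Complex.cosh ((π : ℂ) * v) ≠ 0 := by
  have h5 : Complex.cosh ((π : ℂ) * v) = ((Real.cosh (π * v) : ℝ) : ℂ) := by push_cast; rfl
  rw [h5]
  exact_mod_cast (Real.cosh_pos _).ne'

theorem kap_cont (θ : ℝ) : Continuous (kap θ) := by
  unfold kap
  refine Continuous.div ?_ ?_ (fun v => cosh_ne v)
  · exact Complex.continuous_cosh.comp (((continuous_const.mul Complex.continuous_ofReal).div_const 3).add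
      continuous_const)
  · exact Complex.continuous_cosh.comp (continuous_const.mul Complex.continuous_ofReal)

theorem pow_exp_bound (n : ℕ) (v : ℝ) :
    (1 + |v|) ^ n ≤ (4 ^ n * n.factorial * Real.exp (1 / 4)) * Real.exp (|v| / 4) := by
  have hv := abs_nonneg v
  have := Real.pow_div_factorial_le_exp ((1 + |v|) / 4) (by linarith) n
  rw [div_le_iff₀ (by exact_mod_cast Nat.factorial_pos n), div_pow,
    div_le_iff₀ (by positivity : (0 : ℝ) < 4 ^ n)] at this
  calc (1 + |v|) ^ n ≤ _ := this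
    _ = _ := by
      rw [show (1 + |v|) / 4 = 1 / 4 + |v| / 4 by ring, Real.exp_add]; ring

theorem exp_abs_integrable : Integrable (fun v : ℝ => Real.exp (-|v|)) := by
  have h := integrable_exp_abs (a := 1) one_pos
  simpa using h

/-- the dominating function -/
theorem dom_integrable (L : ℕ) (B : ℝ) (hB : 0 ≤ B) :
    ∃ D : ℝ → ℝ, Integrable D ∧ ∀ θ v : ℝ,
      B * ((1 + |v|) ^ L * Real.exp (|v| / 4)) * (B * ((1 + |v|) ^ L * Real.exp (|v| / 4))) *
        ‖kap θ v‖ ≤ D v := by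
  refine ⟨fun v => (B * B * 2 * (4 ^ (L + L) * (L + L).factorial * Real.exp (1 / 4))) *
    Real.exp (-|v|), exp_abs_integrable.const_mul _, fun θ v => ?_⟩
  have h1 := kap_bound θ v
  have h2 := pow_exp_bound (L + L) v
  have h3 : B * ((1 + |v|) ^ L * Real.exp (|v| / 4)) * (B * ((1 + |v|) ^ L * Real.exp (|v| / 4))) *
      ‖kap θ v‖ = (B * B) * ((1 + |v|) ^ (L + L) * (Real.exp (|v| / 4) * Real.exp (|v| / 4))) *
      ‖kap θ v‖ := by rw [pow_add]; ring
  rw [h3]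
  calc (B * B) * ((1 + |v|) ^ (L + L) * (Real.exp (|v| / 4) * Real.exp (|v| / 4))) * ‖kap θ v‖ ≤
      (B * B) * (((4 ^ (L + L) * (L + L).factorial * Real.exp (1 / 4)) * Real.exp (|v| / 4)) *
        (Real.exp (|v| / 4) * Real.exp (|v| / 4))) * (2 * Real.exp (-(2 * |v|))) := by
        refine mul_le_mul ?_ h1 (norm_nonneg _) (by positivity)
        refine mul_le_mul_of_nonneg_left ?_ (by positivity)
        exact mul_le_mul_of_nonneg_right h2 (by positivity)
    _ = (B * B * 2 * (4 ^ (L + L) * (L + L).factorial * Real.exp (1 / 4))) *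
        (Real.exp (|v| / 4) * Real.exp (|v| / 4) * Real.exp (|v| / 4) * Real.exp (-(2 * |v|))) := by ring
    _ ≤ _ := by
        refine mul_le_mul_of_nonneg_left ?_ (by positivity)
        rw [← Real.exp_add, ← Real.exp_add, ← Real.exp_add]
        apply Real.exp_le_exp.mpr
        have := abs_nonneg v
        linarith

theorem mom_integrable (θ : ℝ) (n : ℕ) : Integrable (fun v : ℝ => kap θ v * (v : ℂ) ^ n) := by
  refine (exp_abs_integrable.const_mul (2 * (4 ^ n * n.factorial * Real.exp (1 / 4)))).mono' ?_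
    (Eventually.of_forall fun v => ?_)
  · exact ((kap_cont θ).mul (Complex.continuous_ofReal.pow n)).aestronglyMeasurable
  · rw [norm_mul, norm_pow, Complex.norm_real, Real.norm_eq_abs]
    have h1 := kap_bound θ v
    have h2 := pow_exp_bound n v
    have h0 : |v| ^ n ≤ (1 + |v|) ^ n := pow_le_pow_left₀ (abs_nonneg v) (by linarith) n
    calc ‖kap θ v‖ * |v| ^ n ≤ (2 * Real.exp (-(2 * |v|))) *
          ((4 ^ n * n.factorial * Real.exp (1 / 4)) * Real.exp (|v| / 4)) :=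
          mul_le_mul h1 (h0.trans h2) (by positivity) (by positivity)
      _ = (2 * (4 ^ n * n.factorial * Real.exp (1 / 4))) *
          (Real.exp (-(2 * |v|)) * Real.exp (|v| / 4)) := by ring
      _ ≤ _ := by
          refine mul_le_mul_of_nonneg_left ?_ (by positivity)
          rw [← Real.exp_add]
          apply Real.exp_le_exp.mpr
          have := abs_nonneg v
          linarith

end B2

open B2

/-- (B2), arbitrary nodes: `det Mmat(ε x) / ε^(L(L-1)) → K * hk L θ`, `K ≠ 0` independent of `θ`. -/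
theorem b2_gen (L : ℕ) (x : Fin L → ℝ) (hx : Function.Injective x) :
    ∃ K : ℂ, K ≠ 0 ∧ ∀ θ : ℝ,
      Tendsto (fun ε : ℝ => (Mmat L θ (fun i => ε * x i)).det / (ε : ℂ) ^ (L * (L - 1)))
        (𝓝[≠] 0) (𝓝 (K * hk L θ)) := by
  set V : Matrix (Fin L) (Fin L) ℂ := Matrix.vandermonde fun i => (x i : ℂ) with hV
  have hVd : V.det ≠ 0 := vdm_det_ne x hx
  set δ : ℂ := (∏ r : Fin L, 2 ^ (r : ℕ) / ((r : ℕ).factorial : ℂ)) *
    (∏ r : Fin L, (-2) ^ (r : ℕ) / ((r : ℕ).factorial : ℂ)) with hδ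
  have hδ0 : δ ≠ 0 := by
    refine mul_ne_zero (Finset.prod_ne_zero_iff.mpr fun r _ => ?_)
      (Finset.prod_ne_zero_iff.mpr fun r _ => ?_)
    · exact div_ne_zero (pow_ne_zero _ two_ne_zero) (by exact_mod_cast Nat.factorial_ne_zero _)
    · exact div_ne_zero (pow_ne_zero _ (neg_ne_zero.mpr two_ne_zero))
        (by exact_mod_cast Nat.factorial_ne_zero _)
  refine ⟨2 ^ L * (V.det * V.det * δ), mul_ne_zero (pow_ne_zero _ two_ne_zero)
    (mul_ne_zero (mul_ne_zero hVd hVd) hδ0), fun θ => ?_⟩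
  have hB : 0 ≤ 2 ^ L + Bc x := by have := Bc_nonneg x; positivity
  obtain ⟨D, hD, hDb⟩ := dom_integrable L (2 ^ L + Bc x) hB
  set F : ℝ → Matrix (Fin L) (Fin L) ℂ := fun ε => Matrix.of fun r s =>
    ∫ v : ℝ, phi x ε r v * phi x ε s (-v) * kap θ v with hF
  have hcont : ∀ ε r s, Continuous (fun v : ℝ => phi x ε r v * phi x ε s (-v) * kap θ v) := by
    intro ε r s
    exact (((phi_cont x ε r).mul ((phi_cont x ε s).comp continuous_neg)).mul (kap_cont θ))
  have hbd : ∀ ε : ℝ, ε ≠ 0 → |ε| ≤ 1 → 8 * (|ε| * Xm x) ≤ 1 → ∀ r s v,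
      ‖phi x ε r v * phi x ε s (-v) * kap θ v‖ ≤ D v := by
    intro ε h1 h2 h2' r s v
    have h3 := phi_bound x hx h1 h2 h2' r v
    have h4 := phi_bound x hx h1 h2 h2' s (-v)
    rw [abs_neg] at h4
    refine le_trans ?_ (hDb θ v)
    rw [norm_mul, norm_mul]
    refine mul_le_mul_of_nonneg_right ?_ (norm_nonneg _)
    exact mul_le_mul h3 h4 (norm_nonneg _) (mul_nonneg hB (by positivity))
  have hFint : ∀ ε : ℝ, ε ≠ 0 → |ε| ≤ 1 → 8 * (|ε| * Xm x) ≤ 1 → ∀ r s,
      HI (fun v => phi x ε r v * phi x ε s (-v) * kap θ v) (F ε r s) := by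
    intro ε h1 h2 h2' r s
    refine ⟨?_, rfl⟩
    exact hD.mono' (hcont ε r s).aestronglyMeasurable
      (Eventually.of_forall fun v => hbd ε h1 h2 h2' r s v)
  have hFlim : ∀ r s : Fin L, Tendsto (fun ε => F ε r s) (𝓝[≠] 0)
      (𝓝 (∫ v : ℝ, ((2 * v) ^ (r : ℕ) / ((r : ℕ).factorial : ℂ)) *
        ((2 * ((-v : ℝ) : ℂ)) ^ (s : ℕ) / ((s : ℕ).factorial : ℂ)) * kap θ v)) := by
    intro r s
    refine tendsto_integral_filter_of_dominated_convergence D
      (Eventually.of_forall fun ε => (hcont ε r s).aestronglyMeasurable) ?_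
      hD (Eventually.of_forall fun v => ?_)
    · filter_upwards [ev_small x] with ε hε
      exact Eventually.of_forall fun v => hbd ε hε.1 hε.2.1 hε.2.2 r s v
    · exact ((phi_tendsto x hx r v).mul (phi_tendsto x hx s (-v))).mul_const _
  set N : Matrix (Fin L) (Fin L) ℂ := Matrix.of fun r s : Fin L =>
    ∫ v : ℝ, ((2 * v) ^ (r : ℕ) / ((r : ℕ).factorial : ℂ)) *
        ((2 * ((-v : ℝ) : ℂ)) ^ (s : ℕ) / ((s : ℕ).factorial : ℂ)) * kap θ v with hN
  have hNdet : N.det = δ * hk L θ := by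
    have h1 : N = Matrix.diagonal (fun r : Fin L => 2 ^ (r : ℕ) / ((r : ℕ).factorial : ℂ)) *
        (Matrix.of fun r s : Fin L => mom θ ((r : ℕ) + (s : ℕ))) *
        Matrix.diagonal (fun r : Fin L => (-2) ^ (r : ℕ) / ((r : ℕ).factorial : ℂ)) := by
      ext r s
      rw [Matrix.mul_diagonal, Matrix.diagonal_mul]
      simp only [hN, Matrix.of_apply, mom]
      rw [← integral_const_mul, ← integral_mul_const]
      congr 1; ext v
      push_cast
      rw [show (2 : ℂ) * -(v : ℂ) = (-2) * v by ring, mul_pow, mul_pow, pow_add]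
      ring
    rw [h1, Matrix.det_mul, Matrix.det_mul, Matrix.det_diagonal, Matrix.det_diagonal, hδ, hk]
    ring
  have hFdet : Tendsto (fun ε => (F ε).det) (𝓝[≠] 0) (𝓝 N.det) := by
    have h1 : Tendsto (fun ε => (fun r s => F ε r s : Fin L → Fin L → ℂ)) (𝓝[≠] 0)
        (𝓝 (fun r s => N r s)) :=
      tendsto_pi_nhds.mpr fun r => tendsto_pi_nhds.mpr fun s => hFlim r s
    have h2 : Continuous (fun A : Fin L → Fin L → ℂ => (Matrix.of A).det) :=
      Continuous.matrix_det continuous_id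
    exact (h2.tendsto _).comp h1
  have hexp : ∀ ε : ℂ, (∏ r : Fin L, ε ^ (r : ℕ)) * (∏ r : Fin L, ε ^ (r : ℕ)) =
      ε ^ (L * (L - 1)) := by
    intro ε
    rw [Finset.prod_pow_eq_pow_sum, ← pow_add]
    congr 1
    rw [← Finset.sum_range (fun i => i)]
    have h := Finset.sum_range_id_mul_two L
    omega
  have hfac : ∀ ε : ℝ, ε ≠ 0 → |ε| ≤ 1 → 8 * (|ε| * Xm x) ≤ 1 →
      (Mmat L θ (fun i => ε * x i)).det =
      2 ^ L * (V.det * V.det * (ε : ℂ) ^ (L * (L - 1)) * (F ε).det) := by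
    intro ε h1 h2 h2'
    have hε0 : 0 < |ε| := abs_pos.mpr h1
    set A : Matrix (Fin L) (Fin L) ℂ := Matrix.of fun i r => (x i : ℂ) ^ (r : ℕ) * (ε : ℂ) ^ (r : ℕ)
      with hA
    have hAV : A = V * Matrix.diagonal (fun r : Fin L => (ε : ℂ) ^ (r : ℕ)) := by
      ext i r
      rw [Matrix.mul_diagonal]
      simp only [hA, hV, Matrix.of_apply, Matrix.vandermonde_apply]
    have h3 : Mmat L θ (fun i => ε * x i) = (2 : ℂ) • (A * F ε * A.transpose) := by
      ext i j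
      have hlt : |ε * x i - ε * x j| < π / 3 := by
        have e1 := le_Xm x i
        have e2 := le_Xm x j
        have e3 : |ε * x i - ε * x j| ≤ |ε| * |x i| + |ε| * |x j| := by
          rw [← abs_mul, ← abs_mul]; exact abs_sub _ _
        have e4 : |ε| * |x i| ≤ |ε| * Xm x := mul_le_mul_of_nonneg_left e1 hε0.le
        have e5 : |ε| * |x j| ≤ |ε| * Xm x := mul_le_mul_of_nonneg_left e2 hε0.le
        have := Real.pi_gt_three
        linarith
      rw [Mmat_eq L θ _ i j hlt, Matrix.smul_apply, smul_eq_mul]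
      congr 1
      have h4 : HI (fun v => kap θ v * Complex.exp (2 * ((ε * x i - ε * x j : ℝ) : ℂ) * v))
          (∑ s : Fin L, (∑ r : Fin L, ((x i : ℂ) ^ (r : ℕ) * (ε : ℂ) ^ (r : ℕ)) * F ε r s) *
            ((x j : ℂ) ^ (s : ℕ) * (ε : ℂ) ^ (s : ℕ))) := by
        have h5 := HI.sum (Finset.univ : Finset (Fin L)) (fun s _ =>
          HI.sum (Finset.univ : Finset (Fin L)) (fun r _ =>
            (hFint ε h1 h2 h2' r s).cmul (((x i : ℂ) ^ (r : ℕ) * (ε : ℂ) ^ (r : ℕ)) *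
              ((x j : ℂ) ^ (s : ℕ) * (ε : ℂ) ^ (s : ℕ)))))
        refine h5.congr ?_ ?_
        · intro v
          have h6 : Complex.exp (2 * ((ε * x i - ε * x j : ℝ) : ℂ) * v) =
              Complex.exp ((2 * (ε * x i) * v : ℝ) : ℂ) *
              Complex.exp ((2 * (ε * x j) * (-v) : ℝ) : ℂ) := by
            rw [← Complex.exp_add]
            congr 1; push_cast; ring
          rw [h6, exp_eq_phi x hx h1 i v, exp_eq_phi x hx h1 j (-v)]
          rw [mul_comm (∑ r : Fin L, (x i : ℂ) ^ (r : ℕ) * ((ε : ℂ) ^ (r : ℕ) * phi x ε r v)),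
            mul_comm (kap θ v)]
          rw [Finset.sum_mul_sum, Finset.sum_mul]
          refine Finset.sum_congr rfl fun s _ => ?_
          rw [Finset.sum_mul]
          exact Finset.sum_congr rfl fun r _ => by ring
        · refine Finset.sum_congr rfl fun s _ => ?_
          rw [Finset.sum_mul]
          exact Finset.sum_congr rfl fun r _ => by ring
      rw [Matrix.mul_apply]
      simp only [Matrix.mul_apply, Matrix.transpose_apply, hA, Matrix.of_apply]
      exact h4.eq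
    rw [h3, Matrix.det_smul, Fintype.card_fin, Matrix.det_mul, Matrix.det_mul,
      Matrix.det_transpose, hAV, Matrix.det_mul, Matrix.det_diagonal, ← hexp]
    ring
  have hlim : Tendsto (fun ε => 2 ^ L * (V.det * V.det * (F ε).det)) (𝓝[≠] 0)
      (𝓝 (2 ^ L * (V.det * V.det * δ) * hk L θ)) := by
    have h1 := (hFdet.const_mul (V.det * V.det)).const_mul ((2 : ℂ) ^ L)
    have h2 : 2 ^ L * (V.det * V.det * N.det) = 2 ^ L * (V.det * V.det * δ) * hk L θ := by
      rw [hNdet]; ring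
    rwa [h2] at h1
  refine hlim.congr' ?_
  filter_upwards [ev_small x] with ε hε
  rw [hfac ε hε.1 hε.2.1 hε.2.2]
  have h1 : (ε : ℂ) ^ (L * (L - 1)) ≠ 0 := pow_ne_zero _ (by exact_mod_cast hε.1)
  field_simp

/-- (B2): nodes `ε i`. -/
theorem b2 (L : ℕ) : ∃ K : ℂ, K ≠ 0 ∧ ∀ θ : ℝ,
    Tendsto (fun ε : ℝ => (Mmat L θ (fun i => ε * (i : ℕ))).det / (ε : ℂ) ^ (L * (L - 1)))
      (𝓝[≠] 0) (𝓝 (K * hk L θ)) :=
  b2_gen L (fun i => ((i : ℕ) : ℝ)) (fun i j h => by
    have h' : ((i : ℕ) : ℝ) = ((j : ℕ) : ℝ) := h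
    exact Fin.ext (by exact_mod_cast h'))

end OneArm
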